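import Pool.Agent.R453.DSp.Asymp

/-!
# MP_d09e6d_nt : the number of intervals in the dimension spectrum of `q`-th powers

The number of connected components of the dimension spectrum `DS(M_q)` tends to infinity with `q`.
-/

namespace Pool.Agent.Results.MP_d09e6d_nt.UnboundedComponents

open Pool.Agent.R453.DSp Set Filter Topology
open scoped NNReal ENNReal

/-- The dimension of the set with continued fraction digits in `{1, k ^ q}`. -/
noncomputable def x (q k : ℕ) : ℝ := (dimH (J ({1, k ^ q} : Set ℕ))).toReal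

theorem pair_sub (q k : ℕ) (hk : 1 ≤ k) : ({1, k ^ q} : Set ℕ) ⊆ Mq q := by
  intro a ha
  rcases ha with h | h
  · exact ⟨1, le_rfl, by rw [h, one_pow]⟩
  · exact ⟨k, hk, h⟩

theorem x_mem (q k : ℕ) (hk : 1 ≤ k) : x q k ∈ DS (Mq q) :=
  ⟨{1, k ^ q}, pair_sub q k hk, ⟨1, Or.inl rfl⟩, rfl⟩

theorem separated (q m : ℕ) (hq : 1 ≤ q) (hm : 2 ≤ m)
    (h : ∃ u l : ℝ≥0, u < l ∧
      (∀ F : Set ℕ, F ⊆ Mq q → (∀ k, 2 ≤ k → k ≤ m → k ^ q ∉ F) → dimH (J F) ≤ u) ∧
      (∀ F : Set ℕ, F ⊆ Mq q → 1 ∉ F → dimH (J F) ≤ u) ∧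
      (∀ F : Set ℕ, 1 ∈ F → (∃ k, 2 ≤ k ∧ k ≤ m ∧ k ^ q ∈ F) → (l : ℝ≥0∞) ≤ dimH (J F)))
    (j : ℕ) (hj : m < j) : ∃ g : ℝ, g ∉ DS (Mq q) ∧ x q j < g ∧ g < x q m := by
  obtain ⟨u, l, hul, h1, h2, h3⟩ := h
  have hulR : (u : ℝ) < l := by exact_mod_cast hul
  have hle : ∀ F : Set ℕ, dimH (J F) ≤ u → (dimH (J F)).toReal ≤ u := by
    intro F hF
    have := ENNReal.toReal_mono ENNReal.coe_ne_top hF
    simpa using this
  have hge : ∀ F : Set ℕ, (l : ℝ≥0∞) ≤ dimH (J F) → (l : ℝ) ≤ (dimH (J F)).toReal := by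
    intro F hF
    have := ENNReal.toReal_mono (Real.dimH_lt_top (J F)).ne hF
    simpa using this
  refine ⟨((u : ℝ) + l) / 2, ?_, ?_, ?_⟩
  · rintro ⟨F, hF, _, hd⟩
    by_cases h1F : 1 ∈ F
    · by_cases hex : ∃ k, 2 ≤ k ∧ k ≤ m ∧ k ^ q ∈ F
      · have := hge F (h3 F h1F hex)
        rw [← hd] at this
        linarith
      · push Not at hex
        have := hle F (h1 F hF hex)
        rw [← hd] at this
        linarith
    · have := hle F (h2 F hF h1F)
      rw [← hd] at this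
      linarith
  · have h4 : dimH (J ({1, j ^ q} : Set ℕ)) ≤ u := by
      apply h1 _ (pair_sub q j (by omega))
      intro k hk2 hkm hk
      rcases hk with h | h
      · have h5 : 1 < k ^ q := Nat.one_lt_pow (by omega) (by omega)
        omega
      · have h5 : k = j := Nat.pow_left_injective (by omega) h
        omega
    have h5 := hle _ h4
    unfold x
    linarith
  · have h4 : (l : ℝ≥0∞) ≤ dimH (J ({1, m ^ q} : Set ℕ)) :=
      h3 _ (Or.inl rfl) ⟨m, hm, le_rfl, Or.inr rfl⟩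
    have h5 := hge _ h4
    unfold x
    linarith

/-- Points of a real set that are separated by a missing point lie in different components. -/
theorem comp_ne {S : Set ℝ} (a b : S) (g : ℝ) (hg : g ∉ S) (ha : (a : ℝ) < g) (hb : g < (b : ℝ)) :
    (a : ConnectedComponents S) ≠ (b : ConnectedComponents S) := by
  intro h
  rw [ConnectedComponents.coe_eq_coe] at h
  have h1 : IsPreconnected (connectedComponent b) := isPreconnected_connectedComponent
  have ha' : a ∈ connectedComponent b := h ▸ mem_connectedComponent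
  have hb' : b ∈ connectedComponent b := mem_connectedComponent
  have h2 : IsPreconnected ((fun y : S => (y : ℝ)) '' connectedComponent b) :=
    h1.image _ continuous_subtype_val.continuousOn
  have h3 := h2.ordConnected
  have h4 : g ∈ (fun y : S => (y : ℝ)) '' connectedComponent b :=
    h3.out ⟨a, ha', rfl⟩ ⟨b, hb', rfl⟩ ⟨ha.le, hb.le⟩
  obtain ⟨y, _, hy⟩ := h4
  exact hg (hy ▸ y.2)

/-- **Main theorem.** For every `C`, the dimension spectrum of the set of `q`-th powers has more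
than `C` connected components for all sufficiently large `q`. -/
theorem result : ∀ C : ℕ, ∃ q₀ : ℕ, ∀ q : ℕ, q₀ ≤ q →
    (C : ℕ∞) < ENat.card (ConnectedComponents (DS (Mq q))) := by
  intro C
  have hev : ∀ᶠ q : ℕ in atTop, ∀ m ∈ Finset.Icc 2 (C + 1), ∃ u l : ℝ≥0, u < l ∧
      (∀ F : Set ℕ, F ⊆ Mq q → (∀ k, 2 ≤ k → k ≤ m → k ^ q ∉ F) → dimH (J F) ≤ u) ∧
      (∀ F : Set ℕ, F ⊆ Mq q → 1 ∉ F → dimH (J F) ≤ u) ∧
      (∀ F : Set ℕ, 1 ∈ F → (∃ k, 2 ≤ k ∧ k ≤ m ∧ k ^ q ∈ F) → (l : ℝ≥0∞) ≤ dimH (J F)) := by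
    rw [Filter.eventually_all_finset]
    intro m hm
    exact gap m (Finset.mem_Icc.1 hm).1
  obtain ⟨q₁, hq₁⟩ := eventually_atTop.1 hev
  refine ⟨max q₁ 1, fun q hq => ?_⟩
  have hq1 : 1 ≤ q := (le_max_right _ _).trans hq
  have hgap := hq₁ q ((le_max_left _ _).trans hq)
  set c : Fin (C + 1) → ConnectedComponents (DS (Mq q)) :=
    fun i => ((⟨x q (i + 2), x_mem q _ (by omega)⟩ : DS (Mq q)) :
      ConnectedComponents (DS (Mq q))) with hc
  have hlt : ∀ i j : Fin (C + 1), i < j → c i ≠ c j := by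
    intro i j hij
    have hijn : (i : ℕ) < j := hij
    have hjlt : (j : ℕ) < C + 1 := j.2
    obtain ⟨g, hg1, hg2, hg3⟩ := separated q (i + 2) hq1 (by omega)
      (hgap _ (Finset.mem_Icc.2 ⟨by omega, by omega⟩)) (j + 2) (by omega)
    exact (comp_ne (⟨x q (j + 2), x_mem q _ (by omega)⟩ : DS (Mq q))
      (⟨x q (i + 2), x_mem q _ (by omega)⟩ : DS (Mq q)) g hg1 hg2 hg3).symm
  have hinj : Function.Injective c := by
    intro i j hij
    rcases lt_trichotomy i j with h | h | h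
    · exact absurd hij (hlt i j h)
    · exact h
    · exact absurd hij.symm (hlt j i h)
  have h1 : ENat.card (Fin (C + 1)) ≤ ENat.card (ConnectedComponents (DS (Mq q))) :=
    ENat.card_le_card_of_injective hinj
  rw [ENat.card_eq_coe_fintype_card, Fintype.card_fin] at h1
  refine lt_of_lt_of_le ?_ h1
  exact_mod_cast Nat.lt_succ_self C

end Pool.Agent.Results.MP_d09e6d_nt.UnboundedComponents
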